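import Pool.Agent.R489.HB.Stm

/-!
# SPLD: the sphere property of a side of a separating triangle
-/

set_option autoImplicit false

namespace Pool.Agent.R195.HB

open Finset Pool.Agent.R489.HB

section
variable {W : Type} [DecidableEq W]

lemma pc3 {a b c : W} (hab : a ≠ b) (hac : a ≠ c) (hbc : b ≠ c) :
    powersetCard 2 ({a, b, c} : Finset W) = {{a, b}, {a, c}, {b, c}} := by
  ext e
  rw [mem_powersetCard]
  simp only [mem_insert, mem_singleton]
  constructor
  · rintro ⟨hs, hc2⟩
    obtain ⟨x, y, hxy, rfl⟩ := card_eq_two.1 hc2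
    have hx := hs (mem_insert_self x {y})
    have hy := hs (mem_insert_of_mem (mem_singleton_self y))
    simp only [mem_insert, mem_singleton] at hx hy
    rcases hx with rfl | rfl | rfl <;> rcases hy with rfl | rfl | rfl <;>
      first
        | exact absurd rfl hxy
        | simp [pair_comm]
  · rintro (rfl | rfl | rfl)
    · exact ⟨by intro z; simp; tauto, card_pair hab⟩
    · exact ⟨by intro z; simp; tauto, card_pair hac⟩
    · exact ⟨by intro z; simp; tauto, card_pair hbc⟩

lemma pair_ne {a b c : W} (hab : a ≠ b) (hac : a ≠ c) (hbc : b ≠ c) :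
    ({a, b} : Finset W) ≠ {a, c} := by
  intro h
  have : b ∈ ({a, c} : Finset W) := by rw [← h]; simp
  simp only [mem_insert, mem_singleton] at this
  rcases this with h | h
  · exact hab h.symm
  · exact hbc h

/-- the two edges of a triangle at one of its vertices -/
lemma two_at {f : Finset W} (hf : f.card = 3) {x : W} (hx : x ∈ f) :
    ∃ y z, x ≠ y ∧ x ≠ z ∧ y ≠ z ∧ f = {x, y, z} := by
  have h2 : (f.erase x).card = 2 := by rw [card_erase_of_mem hx, hf]
  obtain ⟨y, z, hyz, he⟩ := card_eq_two.1 h2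
  refine ⟨y, z, ?_, ?_, hyz, ?_⟩
  · rintro rfl
    have : x ∈ f.erase x := by rw [he]; simp
    simp at this
  · rintro rfl
    have : x ∈ f.erase x := by rw [he]; simp
    simp at this
  · rw [← insert_erase hx, he]

lemma card_at {f : Finset W} (hf : f.card = 3) (x : W) :
    (((powersetCard 2 f).filter (fun e => x ∈ e)).card : ZMod 2) = 0 := by
  by_cases hx : x ∈ f
  · obtain ⟨y, z, hxy, hxz, hyz, rfl⟩ := two_at hf hx
    have : (powersetCard 2 ({x, y, z} : Finset W)).filter (fun e => x ∈ e) = {{x, y}, {x, z}} := by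
      rw [pc3 hxy hxz hyz]
      ext e
      simp only [mem_filter, mem_insert, mem_singleton]
      constructor
      · rintro ⟨rfl | rfl | rfl, h⟩
        · exact Or.inl rfl
        · exact Or.inr rfl
        · simp only [mem_insert, mem_singleton] at h
          rcases h with h | h
          · exact absurd h hxy
          · exact absurd h hxz
      · rintro (rfl | rfl)
        · exact ⟨Or.inl rfl, by simp⟩
        · exact ⟨Or.inr (Or.inl rfl), by simp⟩
    rw [this, card_pair (pair_ne hxy hxz hyz)]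
    rfl
  · have : (powersetCard 2 f).filter (fun e => x ∈ e) = ∅ := by
      rw [filter_eq_empty_iff]
      intro e he h
      exact hx ((mem_powersetCard.1 he).1 h)
    rw [this]
    simp

lemma mem_edg {Φ : Finset (Finset W)} {e : Finset W} :
    e ∈ edg Φ ↔ ∃ f ∈ Φ, e ⊆ f ∧ e.card = 2 := by
  unfold edg
  simp only [mem_biUnion, mem_powersetCard]

lemma vert_sum {Φ Ψ : Finset (Finset W)} (hΨ : Ψ ⊆ Φ) (three : ∀ f ∈ Φ, f.card = 3) (x : W) :
    ∑ e ∈ (edg Φ).filter (fun e => x ∈ e), ((fc Ψ e).card : ZMod 2) = 0 := by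
  have h1 : ∀ e, ((fc Ψ e).card : ZMod 2) = ∑ f ∈ Ψ, if e ⊆ f then 1 else 0 := by
    intro e
    unfold fc
    rw [card_filter]
    push_cast
    rfl
  simp_rw [h1]
  rw [sum_comm]
  apply sum_eq_zero
  intro f hf
  rw [sum_boole]
  have h2 : ((edg Φ).filter (fun e => x ∈ e)).filter (fun e => e ⊆ f) =
      (powersetCard 2 f).filter (fun e => x ∈ e) := by
    ext e
    simp only [mem_filter, mem_powersetCard, mem_edg]
    constructor
    · rintro ⟨⟨⟨g, _, _, h2⟩, h3⟩, h4⟩
      exact ⟨⟨h4, h2⟩, h3⟩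
    · rintro ⟨⟨h4, h2⟩, h3⟩
      exact ⟨⟨⟨f, hΨ hf, h4, h2⟩, h3⟩, h4⟩
  rw [h2]
  exact card_at (three f (hΨ hf)) x

end

theorem SPLD : S_SPLB → S_SPLD := by
  intro hB W _ Φ Φ1 Φ2 T' hT hT3 hTn hTe hS Z hZ hZe
  obtain ⟨-, hinter, hE1, -, -⟩ := hB W Φ Φ1 Φ2 T' hT hT3 hTn hTe hS
  rw [hE1] at hZ ⊢
  have hsub1 : Φ1 ⊆ Φ := by rw [← hS.uni]; exact subset_union_left
  have hsub2 : Φ2 ⊆ Φ := by rw [← hS.uni]; exact subset_union_right
  have hedg1 : edg Φ1 ⊆ edg Φ := by
    intro e he
    obtain ⟨f, hf, h1, h2⟩ := mem_edg.1 he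
    exact mem_edg.2 ⟨f, hsub1 hf, h1, h2⟩
  obtain ⟨Ψ, hΨ, hΨZ⟩ := hT.sph Z (hZ.trans hedg1) hZe
  set Ψ1 := Ψ ∩ Φ1 with hΨ1
  set Ψ2 := Ψ ∩ Φ2 with hΨ2
  have hcard : ∀ e, (fc Ψ e).card = (fc Ψ1 e).card + (fc Ψ2 e).card := by
    intro e
    rw [← card_union_of_disjoint]
    · congr 1
      ext f
      simp only [fc, hΨ1, hΨ2, mem_filter, mem_union, mem_inter]
      constructor
      · rintro ⟨h1, h2⟩
        have := hΨ h1
        rw [← hS.uni, mem_union] at this
        rcases this with h | h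
        · exact Or.inl ⟨⟨h1, h⟩, h2⟩
        · exact Or.inr ⟨⟨h1, h⟩, h2⟩
      · rintro (⟨⟨h1, _⟩, h2⟩ | ⟨⟨h1, _⟩, h2⟩)
        · exact ⟨h1, h2⟩
        · exact ⟨h1, h2⟩
    · rw [disjoint_left]
      intro f h1 h2
      simp only [fc, hΨ1, hΨ2, mem_filter, mem_inter] at h1 h2
      exact (disjoint_left.1 hS.dis) h1.1.2 h2.1.2
  -- edges outside the triangle
  have hout1 : ∀ e ∈ edg Φ1, e ∉ T'.powersetCard 2 → (fc Ψ2 e).card = 0 := by
    intro e he hne
    obtain ⟨f, hf, h1, h2⟩ := mem_edg.1 he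
    rcases hS.side e (hedg1 he) hne with h | h
    · exfalso
      have : f ∈ fc Φ1 e := by simp only [fc, mem_filter]; exact ⟨hf, h1⟩
      rw [h] at this
      simp at this
    · rw [card_eq_zero, ← subset_empty, ← h]
      intro g hg
      simp only [fc, hΨ2, mem_filter, mem_inter] at hg ⊢
      exact ⟨hg.1.2, hg.2⟩
  have hout2 : ∀ e ∈ edg Φ, e ∉ T'.powersetCard 2 → ((fc Ψ2 e).card : ZMod 2) = 0 := by
    intro e he hne
    by_cases h1 : e ∈ edg Φ1
    · rw [hout1 e h1 hne]; simp
    · have hz : e ∉ Z := fun h => h1 (hZ h)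
      have hev : ¬ Odd (fc Ψ e).card := fun h => hz ((hΨZ e he).2 h)
      have h0 : (fc Ψ1 e).card = 0 := by
        rw [card_eq_zero]
        unfold fc
        rw [filter_eq_empty_iff]
        intro f hf hef
        apply h1
        obtain ⟨g, _, _, h2⟩ := mem_edg.1 he
        exact mem_edg.2 ⟨f, (mem_inter.1 hf).2, hef, h2⟩
      rw [hcard, h0, zero_add, Nat.not_odd_iff_even] at hev
      exact (ZMod.natCast_eq_zero_iff_even).2 hev
  -- the counts on the three edges agree
  have hpair : ∀ x y z, x ≠ y → x ≠ z → y ≠ z → T' = {x, y, z} →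
      ((fc Ψ2 {x, y}).card : ZMod 2) = ((fc Ψ2 {x, z}).card : ZMod 2) := by
    intro x y z hxy hxz hyz hT'
    have hpc := pc3 hxy hxz hyz
    rw [← hT'] at hpc
    have h1 := vert_sum (Ψ := Ψ2) (inter_subset_left.trans hΨ) hT.three x
    have h2 : ∑ e ∈ ({{x, y}, {x, z}} : Finset (Finset W)), ((fc Ψ2 e).card : ZMod 2) =
        ∑ e ∈ (edg Φ).filter (fun e => x ∈ e), ((fc Ψ2 e).card : ZMod 2) := by
      apply sum_subset
      · intro e he
        simp only [mem_insert, mem_singleton] at he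
        rw [mem_filter]
        rcases he with rfl | rfl
        · exact ⟨hTe (by rw [hpc]; simp), by simp⟩
        · exact ⟨hTe (by rw [hpc]; simp), by simp⟩
      · intro e he hne
        rw [mem_filter] at he
        apply hout2 e he.1
        rw [hpc]
        simp only [mem_insert, mem_singleton] at hne ⊢
        push Not at hne ⊢
        refine ⟨hne.1, hne.2, ?_⟩
        rintro rfl
        have := he.2
        simp only [mem_insert, mem_singleton] at this
        rcases this with h | h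
        · exact hxy h
        · exact hxz h
    rw [h1, sum_pair (pair_ne hxy hxz hyz)] at h2
    have h3 := eq_neg_of_add_eq_zero_left h2
    rw [h3, ZMod.neg_eq_self_mod_two]
  obtain ⟨a, b, c, hab, hac, hbc, hT'⟩ := card_eq_three.1 hT3
  have hpc := pc3 hab hac hbc
  rw [← hT'] at hpc
  have e1 := hpair a b c hab hac hbc hT'
  have e2 := hpair b a c hab.symm hbc hac (by rw [hT']; ext z; simp; tauto)
  rw [pair_comm b a] at e2
  have hall : ∀ e ∈ T'.powersetCard 2, ((fc Ψ2 e).card : ZMod 2) = ((fc Ψ2 {a, b}).card : ZMod 2) := by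
    intro e he
    rw [hpc] at he
    simp only [mem_insert, mem_singleton] at he
    rcases he with rfl | rfl | rfl
    · rfl
    · exact e1.symm
    · exact e2.symm
  have hT1 : T' ∉ Ψ1 := fun h => hTn (hsub1 (mem_inter.1 h).2)
  have hsubT : ∀ e ∈ edg Φ1, e ∉ T'.powersetCard 2 → ¬ e ⊆ T' := by
    intro e he hne h
    obtain ⟨g, _, _, h2⟩ := mem_edg.1 he
    exact hne (mem_powersetCard.2 ⟨h, h2⟩)
  by_cases hpar : ((fc Ψ2 {a, b}).card : ZMod 2) = 0
  · refine ⟨Ψ1, inter_subset_right.trans (subset_insert _ _), fun e he => ?_⟩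
    rw [hΨZ e (hedg1 he), hcard]
    have hev : Even (fc Ψ2 e).card := by
      by_cases hm : e ∈ T'.powersetCard 2
      · rw [← ZMod.natCast_eq_zero_iff_even, hall e hm, hpar]
      · rw [hout1 e he hm]; exact Even.zero
    rw [Nat.odd_add]
    exact ⟨fun h => h.2 hev, fun h => ⟨fun _ => hev, fun _ => h⟩⟩
  · refine ⟨insert T' Ψ1, insert_subset_insert _ inter_subset_right, fun e he => ?_⟩
    rw [hΨZ e (hedg1 he), hcard]
    by_cases hm : e ∈ T'.powersetCard 2
    · have hod : ¬ Even (fc Ψ2 e).card := by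
        rw [← ZMod.natCast_eq_zero_iff_even, hall e hm]
        exact hpar
      have hins : fc (insert T' Ψ1) e = insert T' (fc Ψ1 e) := by
        unfold fc
        rw [filter_insert, if_pos (mem_powersetCard.1 hm).1]
      have hni : T' ∉ fc Ψ1 e := fun h => hT1 (mem_filter.1 h).1
      rw [hins, card_insert_of_notMem hni]
      rw [Nat.odd_add, Nat.odd_add]
      simp [hod]
    · rw [hout1 e he hm, add_zero]
      have hins : fc (insert T' Ψ1) e = fc Ψ1 e := by
        unfold fc
        rw [filter_insert, if_neg (hsubT e he hm)]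
      rw [hins]

end Pool.Agent.R195.HB
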